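import Pool.Agent.H37.BO.ONE

/-!
# MP_70ba79_ag, board `bo_modules`: row KLC (descent of conics)
-/

set_option autoImplicit false

namespace Pool.Agent.H37.BO

open MvPolynomial SC Pool.Agent.H27.LV Pool.Agent.H17.VG Pool.Agent.H17.BO

section General

variable {k L k' Ω : Type} [Field k] [CharZero k] [Field L] [Field k'] [Field Ω]
  [Algebra k L] [Algebra k k'] [Algebra k' Ω] [Algebra L Ω] [Algebra k Ω]
  [IsScalarTower k L Ω] [IsScalarTower k k' Ω]

/-- linear disjointness, coefficients in `k'` -/
private theorem ldj' (hL : T_LDJ) (hcl : ∀ z : L, IsAlgebraic k z → z ∈ Set.range (algebraMap k L))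
    (halg : ∀ z : k', IsAlgebraic k z) {ι : Type} [Fintype ι] (y : ι → L)
    (hy : LinearIndependent k y) (c : ι → k')
    (h : ∑ i, algebraMap L Ω (y i) * algebraMap k' Ω (c i) = 0) : ∀ i, c i = 0 := by
  intro i
  have h1 := hL k L Ω hcl ι y (fun i => algebraMap k' Ω (c i))
    (fun i => (halg (c i)).algebraMap) h hy i
  exact (map_eq_zero _).1 h1

/-- three coordinates which generate all of them -/
private theorem exists_three (hL : T_LDJ)
    (hcl : ∀ z : L, IsAlgebraic k z → z ∈ Set.range (algebraMap k L))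
    (halg : ∀ z : k', IsAlgebraic k z) {n : ℕ} (x : Fin (n + 1) → L) (hx : ¬ OnLine k x)
    (A B C : Fin (n + 1) → k') (X0 X1 X2 : Ω)
    (hxe : ∀ i, algebraMap L Ω (x i) = X0 * algebraMap k' Ω (A i) + X1 * algebraMap k' Ω (B i) +
      X2 * algebraMap k' Ω (C i)) :
    ∃ (s : Fin 3 → Fin (n + 1)) (P : Fin (n + 1) → Fin 3 → k),
      LinearIndependent k (fun t => x (s t)) ∧
      (∀ j, x j = ∑ a, algebraMap k L (P j a) * x (s a)) := by
  obtain ⟨κ, a, ha, hspan, hli⟩ := exists_linearIndependent' k x
  have : Finite κ := Finite.of_injective a ha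
  have : Fintype κ := Fintype.ofFinite κ
  have hex : ∀ j, ∃ c : κ → k, ∑ i, c i • x (a i) = x j := by
    intro j
    have h1 : x j ∈ Submodule.span k (Set.range (x ∘ a)) := by
      rw [hspan]
      exact Submodule.subset_span ⟨j, rfl⟩
    exact (Submodule.mem_span_range_iff_exists_fun k).1 h1
  choose c hc using hex
  have hle : Fintype.card κ ≤ 3 := by
    by_contra hcard
    have hnot : ¬ LinearIndependent k' (fun i : κ => ![A (a i), B (a i), C (a i)]) := by
      intro h
      have h1 := h.fintype_card_le_finrank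
      rw [Module.finrank_fin_fun] at h1
      exact hcard h1
    obtain ⟨g, hg, i, hi⟩ := Fintype.not_linearIndependent_iff.1 hnot
    have e0 : ∑ i, g i * A (a i) = 0 := by
      have h1 := congrFun hg 0
      simpa [Finset.sum_apply] using h1
    have e1 : ∑ i, g i * B (a i) = 0 := by
      have h1 := congrFun hg 1
      simpa [Finset.sum_apply] using h1
    have e2 : ∑ i, g i * C (a i) = 0 := by
      have h1 := congrFun hg 2
      simpa [Finset.sum_apply] using h1
    refine hi (ldj' (Ω := Ω) hL hcl halg (fun i => x (a i)) hli g ?_ i)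
    have h4 : ∀ i, algebraMap L Ω (x (a i)) * algebraMap k' Ω (g i) =
        X0 * algebraMap k' Ω (g i * A (a i)) + X1 * algebraMap k' Ω (g i * B (a i)) +
          X2 * algebraMap k' Ω (g i * C (a i)) := by
      intro i
      rw [hxe, map_mul, map_mul, map_mul]
      ring
    rw [Finset.sum_congr rfl fun i _ => h4 i, Finset.sum_add_distrib, Finset.sum_add_distrib,
      ← Finset.mul_sum, ← Finset.mul_sum, ← Finset.mul_sum, ← map_sum, ← map_sum, ← map_sum,
      e0, e1, e2, map_zero, mul_zero, mul_zero, mul_zero, add_zero, add_zero]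
  have hge : 3 ≤ Fintype.card κ := by
    by_contra hcard
    have h2 : Fintype.card κ ≤ Fintype.card (Fin 2) := by
      rw [Fintype.card_fin]
      omega
    obtain ⟨f⟩ := Function.Embedding.nonempty_of_card_le h2
    apply hx
    refine ⟨fun j => Function.extend f (c j) 0 0, fun j => Function.extend f (c j) 0 1,
      Function.extend f (fun i => x (a i)) 0 0, Function.extend f (fun i => x (a i)) 0 1,
      fun j => ?_⟩
    have h3 : x j = ∑ r : Fin 2, Function.extend f (fun i => x (a i)) 0 r *
        algebraMap k L (Function.extend f (c j) 0 r) := by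
      rw [← hc j]
      refine Fintype.sum_of_injective f f.injective _ _ ?_ ?_
      · intro r hr
        rw [Function.extend_apply' _ _ _ hr, Pi.zero_apply, zero_mul]
      · intro i
        rw [f.injective.extend_apply, f.injective.extend_apply, Algebra.smul_def, mul_comm]
    rw [h3, Fin.sum_univ_two]
  have hcard : Fintype.card (Fin 3) = Fintype.card κ := by
    rw [Fintype.card_fin]
    omega
  obtain ⟨e⟩ := Fintype.card_eq.1 hcard
  refine ⟨fun t => a (e t), fun j t => c j (e t), ?_, fun j => ?_⟩
  · exact hli.comp e e.injective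
  · rw [← hc j, ← Equiv.sum_comp e]
    exact Finset.sum_congr rfl fun t _ => by rw [Algebra.smul_def]

/-- images of the values of a bilinear form -/
theorem map_bil {F G : Type} [Field F] [Field G] (φ : F →+* G) (q : Matrix (Fin 3) (Fin 3) F)
    (u v : Fin 3 → F) : φ (bil q u v) = bil (q.map φ) (fun a => φ (u a)) (fun a => φ (v a)) := by
  simp only [bil, map_sum, map_mul, Matrix.map_apply]

/-- the quadratic form at the points of a parametrised conic -/
theorem bil_comb {F : Type} [Field F] (q : Matrix (Fin 3) (Fin 3) F) (hq : q.IsSymm)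
    (A B C : Fin 3 → F) (m r : F) :
    bil q (fun a => m * (r ^ 2 * A a + r * B a + C a)) (fun a => m * (r ^ 2 * A a + r * B a + C a)) =
      m ^ 2 * (bil q A A * r ^ 4 + 2 * bil q A B * r ^ 3 + (bil q B B + 2 * bil q A C) * r ^ 2 +
        2 * bil q B C * r + bil q C C) := by
  have h10 : q 1 0 = q 0 1 := hq.apply 0 1
  have h20 : q 2 0 = q 0 2 := hq.apply 0 2
  have h21 : q 2 1 = q 1 2 := hq.apply 1 2
  simp only [bil, Fin.sum_univ_three, h10, h20, h21]
  ring

/-- a polynomial of degree four with a transcendental zero -/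
private theorem quartic {r : Ω} (hr : Transcendental k' r) (a b c d e : k')
    (h : algebraMap k' Ω a * r ^ 4 + algebraMap k' Ω b * r ^ 3 + algebraMap k' Ω c * r ^ 2 +
      algebraMap k' Ω d * r + algebraMap k' Ω e = 0) :
    a = 0 ∧ b = 0 ∧ c = 0 ∧ d = 0 ∧ e = 0 := by
  have h1 := transcendental_iff.1 hr (Polynomial.C a * Polynomial.X ^ 4 +
    Polynomial.C b * Polynomial.X ^ 3 + Polynomial.C c * Polynomial.X ^ 2 +
    Polynomial.C d * Polynomial.X + Polynomial.C e) (by
      simp only [map_add, map_mul, map_pow, Polynomial.aeval_C, Polynomial.aeval_X]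
      exact h)
  refine ⟨?_, ?_, ?_, ?_, ?_⟩
  · have h2 := congrArg (fun p => Polynomial.coeff p 4) h1
    simpa [Polynomial.coeff_X, Polynomial.coeff_C] using h2
  · have h2 := congrArg (fun p => Polynomial.coeff p 3) h1
    simpa [Polynomial.coeff_X, Polynomial.coeff_C] using h2
  · have h2 := congrArg (fun p => Polynomial.coeff p 2) h1
    simpa [Polynomial.coeff_X, Polynomial.coeff_C] using h2
  · have h2 := congrArg (fun p => Polynomial.coeff p 1) h1
    simpa [Polynomial.coeff_X, Polynomial.coeff_C] using h2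
  · have h2 := congrArg (fun p => Polynomial.coeff p 0) h1
    simpa [Polynomial.coeff_X, Polynomial.coeff_C] using h2

omit [CharZero k] in
/-- the parameter is transcendental -/
private theorem trans_r (hcl : ∀ z : L, IsAlgebraic k z → z ∈ Set.range (algebraMap k L))
    (halg : ∀ z : k', IsAlgebraic k z) {n : ℕ} (x : Fin (n + 1) → L) (hx : ¬ OnLine k x)
    (A B C : Fin (n + 1) → k') (m r : Ω)
    (hxe : ∀ i, algebraMap L Ω (x i) = m * (r ^ 2 * algebraMap k' Ω (A i) +
      r * algebraMap k' Ω (B i) + algebraMap k' Ω (C i))) (p : Fin (n + 1)) (hp : x p ≠ 0) :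
    Transcendental k' r := by
  intro hr
  have : Algebra.IsAlgebraic k k' := ⟨halg⟩
  have hrk : IsAlgebraic k r := hr.restrictScalars k
  apply hx
  have hf : ∀ i, IsAlgebraic k (r ^ 2 * algebraMap k' Ω (A i) +
      r * algebraMap k' Ω (B i) + algebraMap k' Ω (C i)) := by
    intro i
    exact (((hrk.pow 2).mul (halg (A i)).algebraMap).add (hrk.mul (halg (B i)).algebraMap)).add
      (halg (C i)).algebraMap
  have hpΩ : algebraMap L Ω (x p) ≠ 0 := (map_ne_zero _).2 hp
  have hm : m ≠ 0 := by
    intro h0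
    rw [hxe p, h0, zero_mul] at hpΩ
    exact hpΩ rfl
  have hu : ∀ j, ∃ u : k, algebraMap k L u = x j / x p := by
    intro j
    refine hcl _ ?_
    have h1 : IsAlgebraic k (algebraMap L Ω (x j / x p)) := by
      rw [map_div₀, hxe j, hxe p, mul_div_mul_left _ _ hm, div_eq_mul_inv]
      exact (hf j).mul (hf p).inv
    exact (isAlgebraic_algebraMap_iff (algebraMap L Ω).injective).1 h1
  choose u hu using hu
  refine ⟨u, 0, x p, 0, fun j => ?_⟩
  rw [hu j, zero_mul, add_zero, mul_div_cancel₀ _ hp]

end General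

theorem pf_KLC (hL : T_LDJ) (hI : T_IMP) : T_KLC := by
  intro k L k' Ω _ _ _ _ _ _ _ _ _ _ _ _ hcl halg n x hx A B C hABC l s0 t0 hxe0
  have hxe1 : ∀ i, algebraMap L Ω (x i) = (l * s0 ^ 2) * algebraMap k' Ω (A i) +
      (l * (s0 * t0)) * algebraMap k' Ω (B i) + (l * t0 ^ 2) * algebraMap k' Ω (C i) := by
    intro i
    rw [hxe0 i]
    ring
  obtain ⟨s, P, hli, hP⟩ := exists_three hL hcl halg x hx A B C _ _ _ hxe1
  have hli' : ∀ v : Fin 3 → k', ∑ t, algebraMap L Ω (x (s t)) * algebraMap k' Ω (v t) = 0 →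
      ∀ t, v t = 0 := fun v hv => ldj' hL hcl halg (fun t => x (s t)) hli v hv
  -- the matrix of the three points
  obtain ⟨M, hM0, hM1, hM2⟩ : ∃ M : Matrix (Fin 3) (Fin 3) k', (∀ t, M t 0 = A (s t)) ∧
      (∀ t, M t 1 = B (s t)) ∧ (∀ t, M t 2 = C (s t)) :=
    ⟨Matrix.of fun t => ![A (s t), B (s t), C (s t)], fun _ => rfl, fun _ => rfl, fun _ => rfl⟩
  have hxM : ∀ v : Fin 3 → k', ∑ t, algebraMap L Ω (x (s t)) * algebraMap k' Ω (v t) =
      (l * s0 ^ 2) * algebraMap k' Ω (Matrix.vecMul v M 0) +
      (l * (s0 * t0)) * algebraMap k' Ω (Matrix.vecMul v M 1) +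
      (l * t0 ^ 2) * algebraMap k' Ω (Matrix.vecMul v M 2) := by
    intro v
    simp only [Matrix.vecMul, dotProduct, Fin.sum_univ_three, map_add, map_mul, hM0, hM1, hM2,
      hxe1]
    ring
  have hMd : M.det ≠ 0 := by
    intro h0
    obtain ⟨v, hv0, hv⟩ := Matrix.exists_vecMul_eq_zero_iff.2 h0
    apply hv0
    funext t
    refine hli' v ?_ t
    rw [hxM v, hv]
    simp
  have hX : ∀ a b c : k', (l * s0 ^ 2) * algebraMap k' Ω a + (l * (s0 * t0)) * algebraMap k' Ω b +
      (l * t0 ^ 2) * algebraMap k' Ω c = 0 → a = 0 ∧ b = 0 ∧ c = 0 := by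
    intro a b c h
    have h1 : Matrix.vecMul (Matrix.vecMul ![a, b, c] M⁻¹) M = ![a, b, c] := by
      rw [Matrix.vecMul_vecMul, Matrix.nonsing_inv_mul _ (isUnit_iff_ne_zero.2 hMd),
        Matrix.vecMul_one]
    have h2 := hli' (Matrix.vecMul ![a, b, c] M⁻¹) (by
      rw [hxM, h1]
      exact h)
    have h3 : Matrix.vecMul ![a, b, c] M⁻¹ = 0 := funext h2
    rw [h3, Matrix.zero_vecMul] at h1
    exact ⟨(congrFun h1 0).symm, (congrFun h1 1).symm, (congrFun h1 2).symm⟩
  -- the relations of the coordinates of the three vectors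
  have hrel : ∀ j, A j = ∑ a, algebraMap k k' (P j a) * A (s a) ∧
      B j = ∑ a, algebraMap k k' (P j a) * B (s a) ∧
      C j = ∑ a, algebraMap k k' (P j a) * C (s a) := by
    intro j
    have h1 := congrArg (algebraMap L Ω) (hP j)
    rw [map_sum] at h1
    simp only [map_mul, ← IsScalarTower.algebraMap_apply k L Ω] at h1
    have h2 := hX (A j - ∑ a, algebraMap k k' (P j a) * A (s a))
      (B j - ∑ a, algebraMap k k' (P j a) * B (s a))
      (C j - ∑ a, algebraMap k k' (P j a) * C (s a)) (by
        simp only [map_sub, map_sum, map_mul, ← IsScalarTower.algebraMap_apply k k' Ω]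
        simp only [Fin.sum_univ_three] at h1 ⊢
        rw [hxe1 j, hxe1 (s 0), hxe1 (s 1), hxe1 (s 2)] at h1
        linear_combination h1)
    exact ⟨sub_eq_zero.1 h2.1, sub_eq_zero.1 h2.2.1, sub_eq_zero.1 h2.2.2⟩
  have hPs : ∀ t u, P (s t) u = if t = u then 1 else 0 := by
    intro t u
    have h1 := Fintype.linearIndependent_iff.1 hli (fun u => P (s t) u - if t = u then 1 else 0)
      (by
        simp only [sub_smul, Finset.sum_sub_distrib, ite_smul, one_smul, zero_smul,
          Finset.sum_ite_eq, Finset.mem_univ, if_true]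
        simp only [Algebra.smul_def]
        rw [← hP (s t), sub_self]) u
    exact sub_eq_zero.1 h1
  have hind : LinearIndependent k' ![(fun a => A (s a)), (fun a => B (s a)), fun a => C (s a)] := by
    rw [Fintype.linearIndependent_iff]
    intro g hg
    have h1 : Matrix.mulVec M g = 0 := by
      funext t
      have h2 := congrFun hg t
      simp only [Fin.sum_univ_three, Matrix.mulVec, dotProduct, hM0, hM1, hM2,
        Pi.zero_apply] at h2 ⊢
      have h3 : g 0 * A (s t) + g 1 * B (s t) + g 2 * C (s t) = 0 := h2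
      linear_combination h3
    have h2 := Matrix.eq_zero_of_mulVec_eq_zero hMd h1
    exact fun i => congrFun h2 i
  -- the parameter
  have ht0 : t0 ≠ 0 := by
    intro h0
    have h1 := (hX 0 0 1 (by rw [h0]; simp)).2.2
    exact one_ne_zero h1
  have hl0 : l ≠ 0 := by
    intro h0
    have h1 := (hX 0 0 1 (by rw [h0]; simp)).2.2
    exact one_ne_zero h1
  obtain ⟨m, r, hm, hxe⟩ : ∃ m r : Ω, m ≠ 0 ∧ ∀ i, algebraMap L Ω (x i) =
      m * (r ^ 2 * algebraMap k' Ω (A i) + r * algebraMap k' Ω (B i) + algebraMap k' Ω (C i)) := by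
    refine ⟨l * t0 ^ 2, s0 / t0, mul_ne_zero hl0 (pow_ne_zero _ ht0), fun i => ?_⟩
    rw [hxe1 i]
    field_simp
  have hr : Transcendental k' r := trans_r hcl halg x hx A B C m r hxe (s 0) (hli.ne_zero 0)
  -- the quadratic relation over k'
  have : CharZero k' := charZero_of_injective_algebraMap (algebraMap k k').injective
  obtain ⟨q1, hq1s, hq1d, hq1⟩ := hI k' (fun a => A (s a)) (fun a => B (s a))
    (fun a => C (s a)) hind
  have hbil : ∀ Q : Matrix (Fin 3) (Fin 3) k', Q.IsSymm →
      bil (Q.map (algebraMap k' Ω)) (fun a => algebraMap L Ω (x (s a)))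
        (fun a => algebraMap L Ω (x (s a))) =
      m ^ 2 * (algebraMap k' Ω (bil Q (fun a => A (s a)) (fun a => A (s a))) * r ^ 4 +
        algebraMap k' Ω (2 * bil Q (fun a => A (s a)) (fun a => B (s a))) * r ^ 3 +
        algebraMap k' Ω (bil Q (fun a => B (s a)) (fun a => B (s a)) +
          2 * bil Q (fun a => A (s a)) (fun a => C (s a))) * r ^ 2 +
        algebraMap k' Ω (2 * bil Q (fun a => B (s a)) (fun a => C (s a))) * r +
        algebraMap k' Ω (bil Q (fun a => C (s a)) (fun a => C (s a)))) := by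
    intro Q hQ
    have hQ' : (Q.map (algebraMap k' Ω)).IsSymm := by
      unfold Matrix.IsSymm
      rw [← Matrix.transpose_map, hQ]
    have h1 : (fun a => algebraMap L Ω (x (s a))) = fun a =>
        m * (r ^ 2 * algebraMap k' Ω (A (s a)) + r * algebraMap k' Ω (B (s a)) +
          algebraMap k' Ω (C (s a))) := funext fun a => hxe (s a)
    rw [h1, bil_comb _ hQ']
    simp only [map_add, map_mul, map_bil, map_ofNat]
  have hz1 : bil (q1.map (algebraMap k' Ω)) (fun a => algebraMap L Ω (x (s a)))
      (fun a => algebraMap L Ω (x (s a))) = 0 := by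
    rw [hbil q1 hq1s, hq1.aa, hq1.ab, hq1.bb, hq1.bc, hq1.cc]
    simp
  -- the quadratic relation over k
  have hdep : ¬ LinearIndependent k (![x (s 0) * x (s 0), x (s 0) * x (s 1), x (s 0) * x (s 2),
      x (s 1) * x (s 1), x (s 1) * x (s 2), x (s 2) * x (s 2)] : Fin 6 → L) := by
    intro hind6
    have h1 := ldj' hL hcl halg (Ω := Ω) _ hind6 ![q1 0 0, 2 * q1 0 1, 2 * q1 0 2, q1 1 1,
      2 * q1 1 2, q1 2 2] (by
        have h10 : q1 1 0 = q1 0 1 := hq1s.apply 0 1
        have h20 : q1 2 0 = q1 0 2 := hq1s.apply 0 2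
        have h21 : q1 2 1 = q1 1 2 := hq1s.apply 1 2
        simp only [bil, Fin.sum_univ_three, Matrix.map_apply, h10, h20, h21] at hz1
        rw [Fin.sum_univ_six]
        simp only [Matrix.cons_val]
        simp only [map_mul, map_ofNat]
        linear_combination hz1)
    have e0 : q1 0 0 = 0 := h1 0
    have e1 : q1 0 1 = 0 := (mul_eq_zero.1 (h1 1)).resolve_left two_ne_zero
    have e2 : q1 0 2 = 0 := (mul_eq_zero.1 (h1 2)).resolve_left two_ne_zero
    apply hq1d
    rw [Matrix.det_fin_three, e0, e1, e2]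
    ring
  obtain ⟨g, hg, i0, hi0⟩ := Fintype.not_linearIndependent_iff.1 hdep
  obtain ⟨q, hqdef⟩ : ∃ q : Matrix (Fin 3) (Fin 3) k, q = !![2 * g 0, g 1, g 2; g 1, 2 * g 3, g 4;
      g 2, g 4, 2 * g 5] := ⟨_, rfl⟩
  have hqs : q.IsSymm := by
    rw [hqdef]
    unfold Matrix.IsSymm
    ext i j
    fin_cases i <;> fin_cases j <;> rfl
  have hzq : bil (q.map (algebraMap k L)) (fun a => x (s a)) (fun a => x (s a)) = 0 := by
    rw [Fin.sum_univ_six] at hg
    simp only [Matrix.cons_val, Algebra.smul_def] at hg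
    rw [hqdef]
    simp only [bil, Fin.sum_univ_three, Matrix.map_apply, Matrix.of_apply, Matrix.cons_val,
      map_mul, map_ofNat]
    linear_combination 2 * hg
  have hqq : (q.map (algebraMap k k')).IsSymm := by
    unfold Matrix.IsSymm
    rw [← Matrix.transpose_map, hqs]
  have hz2 := congrArg (algebraMap L Ω) hzq
  rw [map_bil, map_zero] at hz2
  have hmm : (q.map (algebraMap k L)).map (algebraMap L Ω) =
      (q.map (algebraMap k k')).map (algebraMap k' Ω) := by
    ext i j
    simp only [Matrix.map_apply, ← IsScalarTower.algebraMap_apply]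
  rw [hmm, hbil _ hqq] at hz2
  have hz3 := (mul_eq_zero.1 hz2).resolve_left (pow_ne_zero _ hm)
  obtain ⟨f0, f1, f2, f3, f4⟩ := quartic hr _ _ _ _ _ hz3
  have f1' := (mul_eq_zero.1 f1).resolve_left two_ne_zero
  have f3' := (mul_eq_zero.1 f3).resolve_left two_ne_zero
  have hq0 : q ≠ 0 := by
    intro h0
    rw [hqdef] at h0
    have g0 : g 0 = 0 := (mul_eq_zero.1 (congrFun (congrFun h0 0) 0)).resolve_left two_ne_zero
    have g1 : g 1 = 0 := congrFun (congrFun h0 0) 1
    have g2 : g 2 = 0 := congrFun (congrFun h0 0) 2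
    have g3 : g 3 = 0 := (mul_eq_zero.1 (congrFun (congrFun h0 1) 1)).resolve_left two_ne_zero
    have g4 : g 4 = 0 := congrFun (congrFun h0 1) 2
    have g5 : g 5 = 0 := (mul_eq_zero.1 (congrFun (congrFun h0 2) 2)).resolve_left two_ne_zero
    apply hi0
    fin_cases i0
    · exact g0
    · exact g1
    · exact g2
    · exact g3
    · exact g4
    · exact g5
  refine ⟨s, P, q, hPs, hP, hqs, ?_, hzq, fun j => (hrel j).1, fun j => (hrel j).2.1,
    fun j => (hrel j).2.2, ⟨hind, f0, f1', f2, f3', f4⟩⟩
  -- the determinant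
  intro hdet
  have hdet' : (q.map (algebraMap k k')).det = 0 := by
    have h1 : (q.map (algebraMap k k')).det = algebraMap k k' q.det := by
      rw [RingHom.map_det]
      rfl
    rw [h1, hdet, map_zero]
  have hG : M.transpose * q.map (algebraMap k k') * M = 0 := by
    have hent : ∀ i j, (M.transpose * q.map (algebraMap k k') * M) i j =
        bil (q.map (algebraMap k k')) (fun a => M a i) (fun a => M a j) := by
      intro i j
      simp only [bil, Matrix.mul_apply, Matrix.transpose_apply, Fin.sum_univ_three]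
      ring
    have c0 : (fun a => M a 0) = fun a => A (s a) := funext hM0
    have c1 : (fun a => M a 1) = fun a => B (s a) := funext hM1
    have c2 : (fun a => M a 2) = fun a => C (s a) := funext hM2
    have hdG : (M.transpose * q.map (algebraMap k k') * M).det = 0 := by
      rw [Matrix.det_mul, Matrix.det_mul, hdet', mul_zero, zero_mul]
    have s10 := bil_symm _ hqq (fun a => B (s a)) (fun a => A (s a))
    have s20 := bil_symm _ hqq (fun a => C (s a)) (fun a => A (s a))
    have s21 := bil_symm _ hqq (fun a => C (s a)) (fun a => B (s a))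
    have hg0 : bil (q.map (algebraMap k k')) (fun a => A (s a)) (fun a => C (s a)) = 0 := by
      rw [Matrix.det_fin_three] at hdG
      simp only [hent, c0, c1, c2, s10, s20, s21, f0, f1', f3', f4] at hdG
      have h5 : bil (q.map (algebraMap k k')) (fun a => B (s a)) (fun a => B (s a)) =
          -(2 * bil (q.map (algebraMap k k')) (fun a => A (s a)) (fun a => C (s a))) := by
        linear_combination f2
      rw [h5] at hdG
      have h6 : 2 * bil (q.map (algebraMap k k')) (fun a => A (s a)) (fun a => C (s a)) ^ 3 = 0 := by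
        linear_combination hdG
      exact pow_eq_zero_iff (three_ne_zero) |>.1 ((mul_eq_zero.1 h6).resolve_left two_ne_zero)
    have hbb : bil (q.map (algebraMap k k')) (fun a => B (s a)) (fun a => B (s a)) = 0 := by
      rw [hg0, mul_zero, add_zero] at f2
      exact f2
    ext i j
    rw [hent]
    fin_cases i <;> fin_cases j
    · show bil _ (fun a => M a 0) (fun a => M a 0) = 0
      rw [c0, f0]
    · show bil _ (fun a => M a 0) (fun a => M a 1) = 0
      rw [c0, c1, f1']
    · show bil _ (fun a => M a 0) (fun a => M a 2) = 0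
      rw [c0, c2, hg0]
    · show bil _ (fun a => M a 1) (fun a => M a 0) = 0
      rw [c0, c1, s10, f1']
    · show bil _ (fun a => M a 1) (fun a => M a 1) = 0
      rw [c1, hbb]
    · show bil _ (fun a => M a 1) (fun a => M a 2) = 0
      rw [c1, c2, f3']
    · show bil _ (fun a => M a 2) (fun a => M a 0) = 0
      rw [c0, c2, s20, hg0]
    · show bil _ (fun a => M a 2) (fun a => M a 1) = 0
      rw [c1, c2, s21, f3']
    · show bil _ (fun a => M a 2) (fun a => M a 2) = 0
      rw [c2, f4]
  apply hq0
  have hMu : IsUnit M.det := isUnit_iff_ne_zero.2 hMd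
  have hMtu : IsUnit M.transpose.det := by
    rw [Matrix.det_transpose]
    exact hMu
  have h7 : q.map (algebraMap k k') = 0 := by
    have h8 : M.transpose⁻¹ * (M.transpose * q.map (algebraMap k k') * M) * M⁻¹ =
        q.map (algebraMap k k') := by
      rw [Matrix.mul_assoc M.transpose, ← Matrix.mul_assoc M.transpose⁻¹,
        Matrix.nonsing_inv_mul _ hMtu, Matrix.one_mul, Matrix.mul_assoc,
        Matrix.mul_nonsing_inv _ hMu, Matrix.mul_one]
    rw [← h8, hG, Matrix.mul_zero, Matrix.zero_mul]
  ext i j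
  have h9 := congrFun (congrFun h7 i) j
  exact (map_eq_zero (algebraMap k k')).1 h9

end Pool.Agent.H37.BO
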