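import Pool.Agent.H37.BO.ONE

/-!
# MP_70ba79_ag, board `bo_modules`: row NZ3 (the coordinates are not zero)
-/

set_option autoImplicit false

namespace Pool.Agent.H37.BO

open MvPolynomial SC Pool.Agent.H27.LV Pool.Agent.H17.VG Pool.Agent.H17.BO

/-- value of a form at a multiple of a point -/
theorem eval_hom_mul {K : Type} [Field K] {n d : ℕ} {F : MvPolynomial (Fin (n + 1)) K}
    (hF : F.IsHomogeneous d) (c : K) (z : Fin (n + 1) → K) :
    eval (fun i => c * z i) F = c ^ d * eval z F := by
  rw [eval_eq', eval_eq', Finset.mul_sum]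
  refine Finset.sum_congr rfl fun m hm => ?_
  have h1 : ∑ i, m i = d := by
    have h2 := hF (mem_support_iff.1 hm)
    rw [← h2]
    simp [Finsupp.weight_apply, Finsupp.sum_fintype]
  have h3 : ∏ i, (c * z i) ^ m i = c ^ d * ∏ i, z i ^ m i := by
    rw [← h1, ← Finset.prod_pow_eq_pow_sum, ← Finset.prod_mul_distrib]
    exact Finset.prod_congr rfl fun i _ => mul_pow _ _ _
  rw [h3]
  ring

/-- the Gram matrix of three vectors -/
theorem gram_det {K : Type} [Field K] (q : Matrix (Fin 3) (Fin 3) K) (y : Fin 3 → Fin 3 → K) :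
    (Matrix.of fun i j => bil q (y i) (y j)).det = (Matrix.of y).det ^ 2 * q.det := by
  have h : (Matrix.of fun i j => bil q (y i) (y j)) =
      Matrix.of y * q * (Matrix.of y).transpose := by
    ext i j
    simp only [bil, Matrix.mul_apply, Matrix.transpose_apply, Matrix.of_apply, Fin.sum_univ_three]
    ring
  rw [h, Matrix.det_mul, Matrix.det_mul, Matrix.det_transpose]
  ring

/-- three independent points of a nondegenerate conic are not conjugate -/
theorem bil_ne {K : Type} [Field K] (q : Matrix (Fin 3) (Fin 3) K) (hq : q.IsSymm)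
    (hd : q.det ≠ 0) (y : Fin 3 → Fin 3 → K) (hy : (Matrix.of y).det ≠ 0)
    (h0 : ∀ j, bil q (y j) (y j) = 0) (i j : Fin 3) (hij : i ≠ j) : bil q (y i) (y j) ≠ 0 := by
  have h1 := gram_det q y
  have h2 : (Matrix.of y).det ^ 2 * q.det ≠ 0 := mul_ne_zero (pow_ne_zero _ hy) hd
  have h3 : (Matrix.of fun i j => bil q (y i) (y j)).det =
      2 * (bil q (y 0) (y 1) * bil q (y 0) (y 2) * bil q (y 1) (y 2)) := by
    rw [Matrix.det_fin_three]
    simp only [Matrix.of_apply, h0]
    rw [bil_symm q hq (y 1) (y 0), bil_symm q hq (y 2) (y 0), bil_symm q hq (y 2) (y 1)]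
    ring
  rw [← h1, h3] at h2
  have h4 := right_ne_zero_of_mul h2
  have h12 := right_ne_zero_of_mul h4
  have h5 := left_ne_zero_of_mul h4
  have h02 := right_ne_zero_of_mul h5
  have h01 := left_ne_zero_of_mul h5
  fin_cases i <;> fin_cases j
  · exact absurd rfl hij
  · exact h01
  · exact h02
  · show bil q (y 1) (y 0) ≠ 0
    rw [bil_symm q hq]
    exact h01
  · exact absurd rfl hij
  · exact h12
  · show bil q (y 2) (y 0) ≠ 0
    rw [bil_symm q hq]
    exact h02
  · show bil q (y 2) (y 1) ≠ 0
    rw [bil_symm q hq]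
    exact h12
  · exact absurd rfl hij

/-- if one coordinate vanishes then at most one does not -/
theorem one_coord {K : Type} [Field K] (b01 b02 b12 : K) (h01 : b01 ≠ 0) (h02 : b02 ≠ 0)
    (h12 : b12 ≠ 0) (α : Fin 3 → K)
    (hrel : α 0 * α 1 * b01 + α 0 * α 2 * b02 + α 1 * α 2 * b12 = 0) (i : Fin 3)
    (hi : α i = 0) : ∃ j, ∀ l, l ≠ j → α l = 0 := by
  have key : ∀ a b c : K, a * b * c = 0 → c ≠ 0 → a = 0 ∨ b = 0 := by
    intro a b c h hc
    rcases mul_eq_zero.1 h with h | h
    · exact mul_eq_zero.1 h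
    · exact absurd h hc
  fin_cases i
  · have hi0 : α 0 = 0 := hi
    rw [hi0] at hrel
    have h : α 1 * α 2 * b12 = 0 := by linear_combination hrel
    rcases key _ _ _ h h12 with h | h
    · refine ⟨2, fun l hl => ?_⟩
      fin_cases l
      · exact hi0
      · exact h
      · exact absurd rfl hl
    · refine ⟨1, fun l hl => ?_⟩
      fin_cases l
      · exact hi0
      · exact absurd rfl hl
      · exact h
  · have hi0 : α 1 = 0 := hi
    rw [hi0] at hrel
    have h : α 0 * α 2 * b02 = 0 := by linear_combination hrel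
    rcases key _ _ _ h h02 with h | h
    · refine ⟨2, fun l hl => ?_⟩
      fin_cases l
      · exact h
      · exact hi0
      · exact absurd rfl hl
    · refine ⟨0, fun l hl => ?_⟩
      fin_cases l
      · exact absurd rfl hl
      · exact hi0
      · exact h
  · have hi0 : α 2 = 0 := hi
    rw [hi0] at hrel
    have h : α 0 * α 1 * b01 = 0 := by linear_combination hrel
    rcases key _ _ _ h h01 with h | h
    · refine ⟨1, fun l hl => ?_⟩
      fin_cases l
      · exact h
      · exact absurd rfl hl
      · exact hi0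
    · refine ⟨0, fun l hl => ?_⟩
      fin_cases l
      · exact absurd rfl hl
      · exact h
      · exact hi0

theorem pf_NZ3 : T_NZ3 := by
  intro K L _ _ _ _ n d F x hd hF hx s P q U V Y hC θ hθ
  have : CharZero L := charZero_of_injective_algebraMap (algebraMap K L).injective
  have hdvd : ∀ G : Polynomial K, U ∣ G → Polynomial.aeval θ G = 0 := by
    rintro G ⟨W, rfl⟩
    rw [map_mul, Polynomial.aeval_def, ← Polynomial.eval_map, hθ, zero_mul]
  obtain ⟨y, hy⟩ : ∃ y : Fin 3 → Fin 3 → L, ∀ j a, Polynomial.aeval θ (Y j a) = y j a :=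
    ⟨fun j a => Polynomial.aeval θ (Y j a), fun _ _ => rfl⟩
  have hyf : ∀ j, (fun a => Polynomial.aeval θ (Y j a)) = y j := fun j => funext fun a => hy j a
  have hym : (Matrix.of fun j a => Polynomial.aeval θ (Y j a)) = Matrix.of y := by
    ext j a
    exact hy j a
  have hdet1 : (Matrix.of y).det * Polynomial.aeval θ V = 1 := by
    have h := hdvd _ hC.inv
    rw [map_sub, map_one, map_mul, AlgHom.map_det] at h
    have h2 : (Polynomial.aeval θ : Polynomial K →ₐ[K] L).mapMatrix (Matrix.of Y) =
        Matrix.of y := by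
      ext j a
      exact hy j a
    rw [h2] at h
    exact sub_eq_zero.1 h
  have hdet : (Matrix.of y).det ≠ 0 := left_ne_zero_of_mul (hdet1 ▸ one_ne_zero)
  have hsym : (q.map (algebraMap K L)).IsSymm := by
    unfold Matrix.IsSymm
    rw [← Matrix.transpose_map, hC.symm]
  have hqd : (q.map (algebraMap K L)).det ≠ 0 := by
    have h : (q.map (algebraMap K L)).det = algebraMap K L q.det := by
      rw [RingHom.map_det]
      rfl
    rw [h]
    exact (map_ne_zero _).2 hC.det
  have hcon : ∀ j, bil (q.map (algebraMap K L)) (y j) (y j) = 0 := by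
    intro j
    have h := hdvd _ (hC.con j)
    simp only [map_sum, map_mul, Polynomial.aeval_C, hy] at h
    exact h
  have hne := bil_ne _ hsym hqd y hdet hcon
  rw [hym]
  simp only [hyf]
  refine ⟨hdet, hcon, hne, ?_⟩
  obtain ⟨α, hα⟩ : ∃ α : Fin 3 → L, ∀ a, algebraMap K L (x (s a)) = ∑ j, α j * y j a := by
    refine ⟨Matrix.vecMul (fun a => algebraMap K L (x (s a))) (Matrix.of y)⁻¹, fun a => ?_⟩
    have h : Matrix.vecMul (Matrix.vecMul (fun a => algebraMap K L (x (s a))) (Matrix.of y)⁻¹)
        (Matrix.of y) = fun a => algebraMap K L (x (s a)) := by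
      rw [Matrix.vecMul_vecMul, Matrix.nonsing_inv_mul _ (isUnit_iff_ne_zero.2 hdet),
        Matrix.vecMul_one]
    have h2 := congrFun h a
    rw [← h2]
    rfl
  refine ⟨α, fun a => by rw [hα a]; exact Finset.sum_congr rfl fun j _ => by rw [hy j a], ?_⟩
  have hxx : bil (q.map (algebraMap K L)) (fun a => ∑ j, α j * y j a)
      (fun a => ∑ j, α j * y j a) = 0 := by
    have h := congrArg (algebraMap K L) hC.on
    rw [map_zero] at h
    simp only [map_sum, map_mul, hα] at h
    exact h
  rw [bil_rel _ hsym y hcon α] at hxx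
  have hrel := (mul_eq_zero.1 hxx).resolve_left two_ne_zero
  intro i hi
  obtain ⟨j, hj⟩ := one_coord _ _ _ (hne 0 1 (by decide)) (hne 0 2 (by decide))
    (hne 1 2 (by decide)) α hrel i hi
  have hxj : ∀ a, algebraMap K L (x (s a)) = α j * y j a := by
    intro a
    rw [hα a]
    exact Finset.sum_eq_single j (fun l _ hl => by rw [hj l hl, zero_mul])
      (fun h => absurd (Finset.mem_univ j) h)
  have hxi : ∀ i, algebraMap K L (x i) = α j * ∑ a, algebraMap K L (P i a) * y j a := by
    intro i
    rw [hC.plane i, map_sum, Finset.mul_sum]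
    refine Finset.sum_congr rfl fun a _ => ?_
    rw [map_mul, hxj a]
    ring
  have hpt : eval (fun i => ∑ a, algebraMap K L (P i a) * y j a)
      (MvPolynomial.map (algebraMap K L) F) = 0 := by
    have h := hdvd _ (hC.pts j)
    rw [MvPolynomial.comp_aeval_apply, MvPolynomial.aeval_def, ← MvPolynomial.eval_map] at h
    rw [← h]
    refine congrArg (fun z => eval z (MvPolynomial.map (algebraMap K L) F)) (funext fun i => ?_)
    simp only [map_sum, map_mul, Polynomial.aeval_C, hy]
  apply hx
  apply (algebraMap K L).injective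
  rw [map_zero]
  have h1 : algebraMap K L (eval x F) = eval (fun i => algebraMap K L (x i))
      (MvPolynomial.map (algebraMap K L) F) := by
    rw [MvPolynomial.eval_map, MvPolynomial.eval₂_comp]
    rfl
  rw [h1]
  have h2 : (fun i => algebraMap K L (x i)) =
      fun i => α j * (∑ a, algebraMap K L (P i a) * y j a) := funext hxi
  rw [h2, eval_hom_mul (hF.map _), hpt, mul_zero]

end Pool.Agent.H37.BO
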