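import Pool.Agent.H17.BO.TargetsE

/-!
# MP_70ba79_ag, board `bo_modules`: row ONE (identities for the parameter `t`)
-/

set_option autoImplicit false

namespace Pool.Agent.H37.BO

open MvPolynomial SC Pool.Agent.H27.LV Pool.Agent.H17.VG Pool.Agent.H17.BO

/-- the bilinear form is symmetric -/
theorem bil_symm {K : Type} [Field K] (q : Matrix (Fin 3) (Fin 3) K) (hq : q.IsSymm)
    (u v : Fin 3 → K) : bil q u v = bil q v u := by
  unfold bil
  rw [Finset.sum_comm]
  refine Finset.sum_congr rfl fun a _ => Finset.sum_congr rfl fun b _ => ?_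
  rw [hq.apply a b]
  ring

/-- expansion of the quadratic form on a combination of three vectors -/
theorem bil_expand {K : Type} [Field K] (q : Matrix (Fin 3) (Fin 3) K)
    (y : Fin 3 → Fin 3 → K) (α : Fin 3 → K) :
    bil q (fun a => ∑ j, α j * y j a) (fun a => ∑ j, α j * y j a) =
      ∑ i, ∑ j, α i * α j * bil q (y i) (y j) := by
  simp only [bil, Fin.sum_univ_three]
  ring

/-- the quadratic relation between the coordinates -/
theorem bil_rel {K : Type} [Field K] (q : Matrix (Fin 3) (Fin 3) K) (hq : q.IsSymm)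
    (y : Fin 3 → Fin 3 → K) (hy : ∀ j, bil q (y j) (y j) = 0) (α : Fin 3 → K) :
    bil q (fun a => ∑ j, α j * y j a) (fun a => ∑ j, α j * y j a) =
      2 * (α 0 * α 1 * bil q (y 0) (y 1) + α 0 * α 2 * bil q (y 0) (y 2) +
        α 1 * α 2 * bil q (y 1) (y 2)) := by
  rw [bil_expand]
  simp only [Fin.sum_univ_three, hy]
  rw [bil_symm q hq (y 1) (y 0), bil_symm q hq (y 2) (y 0), bil_symm q hq (y 2) (y 1)]
  ring

theorem pf_ONE : T_ONE := by
  intro L _ _ q y α hq hy hb hα hx
  have h01 := hb 0 1 (by decide)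
  have h02 := hb 0 2 (by decide)
  have h12 := hb 1 2 (by decide)
  rw [bil_rel q hq y hy α] at hx
  have hrel : α 0 * α 1 * bil q (y 0) (y 1) + α 0 * α 2 * bil q (y 0) (y 2) +
        α 1 * α 2 * bil q (y 1) (y 2) = 0 := by
    rcases mul_eq_zero.1 hx with h | h
    · exact absurd h two_ne_zero
    · exact h
  have h0 := hα 0
  have h1 := hα 1
  have h2 := hα 2
  generalize bil q (y 0) (y 1) = b01 at *
  have e0 : tco q y α = -(bil q (y 1) (y 2) * α 1) / (bil q (y 0) (y 2) * α 0) := rfl
  rw [e0]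
  generalize bil q (y 0) (y 2) = b02 at *
  generalize bil q (y 1) (y 2) = b12 at *
  generalize α 0 = a0 at *
  generalize α 1 = a1 at *
  generalize α 2 = a2 at *
  have e1 : 1 - -(b12 * a1) / (b02 * a0) = -(b01 * a1) / (b02 * a2) := by
    field_simp
    linear_combination hrel
  have n1 : -(b01 * a1) / (b02 * a2) ≠ 0 :=
    div_ne_zero (neg_ne_zero.2 (mul_ne_zero h01 h1)) (mul_ne_zero h02 h2)
  refine ⟨div_ne_zero (neg_ne_zero.2 (mul_ne_zero h12 h1)) (mul_ne_zero h02 h0), e1, ?_, ?_, ?_⟩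
  · rw [e1]
    exact n1
  · field_simp
  · rw [e1]
    field_simp

end Pool.Agent.H37.BO
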